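import Pool.Agent.K4W.StmtsP

/-!
Row SZS: sums of the coefficients.
-/

set_option autoImplicit false

namespace Pool.Agent.K4W.H21

open Pool.Agent.K4W

theorem szs (h1 : GsmStmt) (h2 : CabStmt) : SzsStmt := by
  intro N r γ hN hr
  have hR : 0 < RR N r γ := (h2 N r γ 0 hN hr).1
  have hc : ∀ m : ℤ, ‖cf N r γ m‖ = Real.sqrt ((N : ℝ) / (2 * RR N r γ)) *
      Real.exp (-(Real.pi * (m : ℝ) ^ 2 / (RR N r γ) ^ 2)) := fun m => (h2 N r γ m hN hr).2
  generalize RR N r γ = R at hR hc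
  have hK0 : 0 ≤ Real.sqrt ((N : ℝ) / (2 * R)) := Real.sqrt_nonneg _
  have hKsq : Real.sqrt ((N : ℝ) / (2 * R)) ^ 2 = (N : ℝ) / (2 * R) :=
    Real.sq_sqrt (by positivity)
  generalize hK : Real.sqrt ((N : ℝ) / (2 * R)) = K at hc hK0 hKsq
  have hfun : (fun m : ℤ => ‖cf N r γ m‖) =
      fun m : ℤ => K * Real.exp (-(Real.pi * (m : ℝ) ^ 2 / R ^ 2)) := funext hc
  have hpi := Real.pi_pos
  refine ⟨?_, ?_, ?_, ?_, ?_⟩
  · rw [hfun]
    exact (h1 R hR).1.mul_left K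
  · rw [hfun, tsum_mul_left]
    exact mul_le_mul_of_nonneg_left (h1 R hR).2 hK0
  · intro F
    have e1 : ∀ m ∈ F, ‖cf N r γ m‖ ^ 2 ≤
        K ^ 2 * Real.exp (-(Real.pi * (m : ℝ) ^ 2 / R ^ 2)) := by
      intro m _
      rw [hc, mul_pow]
      refine mul_le_mul_of_nonneg_left ?_ (by positivity)
      have h3 : Real.exp (-(Real.pi * (m : ℝ) ^ 2 / R ^ 2)) ≤ 1 := by
        rw [Real.exp_le_one_iff]
        have : 0 ≤ Real.pi * (m : ℝ) ^ 2 / R ^ 2 := by positivity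
        linarith
      have h4 := Real.exp_pos (-(Real.pi * (m : ℝ) ^ 2 / R ^ 2))
      nlinarith
    refine (Finset.sum_le_sum e1).trans ?_
    rw [← Finset.mul_sum, hKsq]
    refine mul_le_mul_of_nonneg_left ?_ (by positivity)
    exact ((h1 R hR).1.sum_le_tsum F (fun m _ => (Real.exp_pos _).le)).trans (h1 R hR).2
  · intro μ hμ F hF
    have hμ' : (0 : ℝ) < μ := by exact_mod_cast hμ
    have hRμ : 0 < R / (μ : ℝ) := by positivity
    have e1 : ∑ m ∈ F, ‖cf N r γ m‖ =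
        K * ∑ k ∈ F.image (fun m => m / (μ : ℤ)),
          Real.exp (-(Real.pi * (k : ℝ) ^ 2 / (R / (μ : ℝ)) ^ 2)) := by
      rw [Finset.sum_image, Finset.mul_sum]
      · refine Finset.sum_congr rfl fun m hm => ?_
        rw [hc]
        obtain ⟨k, hk⟩ := hF m hm
        have hμz : (μ : ℤ) ≠ 0 := by exact_mod_cast hμ.ne'
        have h3 : m / (μ : ℤ) = k := by rw [hk]; exact Int.mul_ediv_cancel_left k hμz
        rw [h3, hk]
        congr 2
        push_cast
        field_simp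
      · intro a ha b hb hab
        have h3 := Int.ediv_mul_cancel (hF a ha)
        have h4 := Int.ediv_mul_cancel (hF b hb)
        have hab' : a / (μ : ℤ) = b / (μ : ℤ) := hab
        rw [← h3, ← h4, hab']
    rw [e1]
    refine mul_le_mul_of_nonneg_left ?_ hK0
    exact ((h1 _ hRμ).1.sum_le_tsum _ (fun m _ => (Real.exp_pos _).le)).trans (h1 _ hRμ).2
  · intro M F hF
    have hT : 0 < Real.sqrt 2 * R := by positivity
    have hT2 : (Real.sqrt 2 * R) ^ 2 = 2 * R ^ 2 := by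
      rw [mul_pow, Real.sq_sqrt (by norm_num)]
    have e1 : ∀ m ∈ F, ‖cf N r γ m‖ ≤ K * Real.exp (-(Real.pi * (M : ℝ) ^ 2 / (2 * R ^ 2))) *
        Real.exp (-(Real.pi * (m : ℝ) ^ 2 / (Real.sqrt 2 * R) ^ 2)) := by
      intro m hm
      rw [hc, hT2, mul_assoc, ← Real.exp_add]
      refine mul_le_mul_of_nonneg_left ?_ hK0
      rw [Real.exp_le_exp]
      have h3 : (M : ℝ) ^ 2 ≤ (m : ℝ) ^ 2 := by
        have h4 : (M : ℤ) ^ 2 ≤ m ^ 2 := by
          rw [← sq_abs m]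
          exact pow_le_pow_left₀ (by positivity) (hF m hm).le 2
        exact_mod_cast h4
      have h5 : Real.pi * (m : ℝ) ^ 2 / R ^ 2 =
          Real.pi * (m : ℝ) ^ 2 / (2 * R ^ 2) + Real.pi * (m : ℝ) ^ 2 / (2 * R ^ 2) := by
        field_simp
        ring
      have h6 : Real.pi * (M : ℝ) ^ 2 / (2 * R ^ 2) ≤ Real.pi * (m : ℝ) ^ 2 / (2 * R ^ 2) := by
        gcongr
      linarith
    refine (Finset.sum_le_sum e1).trans ?_
    rw [← Finset.mul_sum]
    refine mul_le_mul_of_nonneg_left ?_ (by positivity)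
    refine ((h1 _ hT).1.sum_le_tsum _ (fun m _ => (Real.exp_pos _).le)).trans
      ((h1 _ hT).2.trans ?_)
    have h7 : Real.sqrt 2 ≤ 2 := by
      rw [Real.sqrt_le_left (by norm_num)]
      norm_num
    nlinarith

end Pool.Agent.K4W.H21
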