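import Pool.Agent.K4W.StmtsP

/-!
Row SZZ: sums of the coefficients, in terms of `Z`.
-/

set_option autoImplicit false

namespace Pool.Agent.K4W.H21

open Pool.Agent.K4W

theorem szz (h1 : RzbStmt) (h2 : SzsStmt) : SzzStmt := by
  intro Z N r μ b β hZ hN hpar hμ1 hμ2 F
  obtain ⟨hR1, hR2⟩ := h1 Z N r μ b β hZ hN hpar hμ1 hμ2
  obtain ⟨hs, hs1, hs2, -, -⟩ := h2 N r ((μ : ℝ) * β) hN hpar.1.pos
  generalize RR N r ((μ : ℝ) * β) = R at hR1 hR2 hs1 hs2
  have hZ' : (2 : ℝ) ≤ Z := by exact_mod_cast hZ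
  have hR3 : (3 : ℝ) ≤ R := by
    have h3 : (Z : ℝ) ^ 2 ≤ (Z : ℝ) ^ 166 := pow_le_pow_right₀ (by linarith) (by norm_num)
    nlinarith
  have hN' : (0 : ℝ) < N := by exact_mod_cast hN
  have hR0 : 0 < R := by linarith
  constructor
  · have e1 : ∑ m ∈ F, ‖cf N r ((μ : ℝ) * β) m‖ ≤ Real.sqrt ((N : ℝ) / (2 * R)) * (1 + R) :=
      (hs.sum_le_tsum F (fun m _ => norm_nonneg _)).trans hs1
    refine e1.trans ?_
    have hz : (0 : ℝ) ≤ (Z : ℝ) ^ 542 := by positivity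
    have e2 : Real.sqrt ((N : ℝ) / (2 * R)) * (1 + R) ≤ Real.sqrt ((N : ℝ) * R) := by
      rw [show (1 + R) = Real.sqrt ((1 + R) ^ 2) from (Real.sqrt_sq (by positivity)).symm,
        ← Real.sqrt_mul (by positivity)]
      apply Real.sqrt_le_sqrt
      rw [div_mul_eq_mul_div, div_le_iff₀ (by positivity)]
      nlinarith [mul_nonneg hN'.le (show (0 : ℝ) ≤ 2 * R ^ 2 - (1 + R) ^ 2 by nlinarith)]
    refine e2.trans ?_
    have e3 : (N : ℝ) * R ≤ (N : ℝ) * (3 * (Z : ℝ) ^ 542) ^ 2 := by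
      refine mul_le_mul_of_nonneg_left ?_ hN'.le
      refine hR2.trans ?_
      rw [mul_pow, ← pow_mul]
      have h5 : (0 : ℝ) ≤ (Z : ℝ) ^ 1084 := by positivity
      have h6 : (542 : ℕ) * 2 = 1084 := by norm_num
      rw [h6]
      linarith
    refine (Real.sqrt_le_sqrt e3).trans (le_of_eq ?_)
    rw [Real.sqrt_mul hN'.le, Real.sqrt_sq (by positivity)]
    ring
  · refine (hs2 F).trans ?_
    rw [div_mul_eq_mul_div, div_le_iff₀ (by positivity)]
    nlinarith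

end Pool.Agent.K4W.H21
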